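import Mathlib

set_option autoImplicit false

/-! Project HS, part COUNT -/

namespace Pool.Agent.W195.HS

theorem hs_count (S : ℕ → ℕ → ℕ → ℕ → Prop) (B : ℕ)
    (h0 : ∀ a b m N, S a b m N → 1 ≤ a ∧ a ≤ b)
    (h2 : ∀ a b m m' N, S a b m N → S a b m' N → m = m')
    (hN : ∀ a b m N, S a b m N → (N:ℝ) ≤ Real.log b + 3)
    (h3 : ∀ a b m b' m' N, S a b m N → S a b' m' N → B ≤ b → B ≤ b' → b = b')
    (h4 : ∀ x a b m a' b' m' N : ℕ, S a b m N → S a' b' m' N → B ≤ a → a < a' → b ≤ x →
      b' ≤ x → x ≤ a^2 → a*a' ≤ 24*x*(a'-a)) :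
    ∃ C : ℝ, ∀ x : ℕ, 2 ≤ x →
      {t : ℕ × ℕ × ℕ | (∃ N, S t.1 t.2.1 t.2.2 N) ∧ t.2.1 ≤ x}.Finite ∧
      ({t : ℕ × ℕ × ℕ | (∃ N, S t.1 t.2.1 t.2.2 N) ∧ t.2.1 ≤ x}.ncard : ℝ) ≤
        C * Real.sqrt x * Real.log x := by
  classical
  refine ⟨7 * ((B:ℝ) ^ 2 + B + 51), fun x hx => ?_⟩
  set A := {t : ℕ × ℕ × ℕ | (∃ N, S t.1 t.2.1 t.2.2 N) ∧ t.2.1 ≤ x} with hA
  set s := Nat.sqrt x with hs
  set L := ⌊Real.log x⌋₊ + 4 with hL
  have hx1 : (1 : ℝ) ≤ x := by
    have : (2 : ℝ) ≤ x := by exact_mod_cast hx
    linarith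
  have hlog0 : 0 ≤ Real.log x := Real.log_nonneg hx1
  let nn : ℕ × ℕ × ℕ → ℕ := fun t => if h : ∃ N, S t.1 t.2.1 t.2.2 N then h.choose else 0
  have hnn : ∀ t ∈ A, S t.1 t.2.1 t.2.2 (nn t) := by
    intro t ht
    have h : ∃ N, S t.1 t.2.1 t.2.2 N := ht.1
    have e : nn t = h.choose := dif_pos h
    rw [e]
    exact h.choose_spec
  have hnL : ∀ t ∈ A, nn t < L := by
    intro t ht
    have h1 := hN _ _ _ _ (hnn t ht)
    obtain ⟨k1, k2⟩ := h0 _ _ _ _ (hnn t ht)
    have hb : (0 : ℝ) < t.2.1 := by
      have : 0 < t.2.1 := by omega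
      exact_mod_cast this
    have hbx : (t.2.1 : ℝ) ≤ x := by exact_mod_cast ht.2
    have h5 := Real.log_le_log hb hbx
    have h6 := Nat.lt_floor_add_one (Real.log x)
    have h7 : (nn t : ℝ) < ((⌊Real.log x⌋₊ + 4 : ℕ) : ℝ) := by
      push_cast
      linarith
    exact_mod_cast h7
  let g : ℕ × ℕ × ℕ → ℕ × ℕ × ℕ × ℕ := fun t =>
    if t.2.1 < B then (0, t.1, t.2.1, nn t)
    else if t.1 < B ∨ t.1 ≤ s then (1, t.1, 0, nn t)
    else (2, 24 * x / t.1, 0, nn t)
  let G : Finset (ℕ × ℕ × ℕ × ℕ) :=
    ({0} ×ˢ Finset.range B ×ˢ Finset.range B ×ˢ Finset.range L) ∪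
    (({1} ×ˢ Finset.range (B + s + 1) ×ˢ {0} ×ˢ Finset.range L) ∪
      ({2} ×ˢ Finset.range (24 * (s + 1) + 1) ×ˢ {0} ×ˢ Finset.range L))
  have hsq : x < (s + 1) * (s + 1) := Nat.lt_succ_sqrt x
  have hmap : ∀ t ∈ A, g t ∈ (G : Set (ℕ × ℕ × ℕ × ℕ)) := by
    intro t ht
    have k0 := hnL t ht
    obtain ⟨k1, k2⟩ := h0 _ _ _ _ (hnn t ht)
    rw [Finset.mem_coe]
    by_cases c1 : t.2.1 < B
    · have e : g t = (0, t.1, t.2.1, nn t) := if_pos c1
      rw [e]
      simp only [G, Finset.mem_union, Finset.mem_product, Finset.mem_singleton, Finset.mem_range]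
      left
      refine ⟨trivial, by omega, c1, k0⟩
    · by_cases c2 : t.1 < B ∨ t.1 ≤ s
      · have e : g t = (1, t.1, 0, nn t) := by
          simp only [g]
          rw [if_neg c1, if_pos c2]
        rw [e]
        simp only [G, Finset.mem_union, Finset.mem_product, Finset.mem_singleton, Finset.mem_range]
        right; left
        refine ⟨trivial, by omega, trivial, k0⟩
      · have e : g t = (2, 24 * x / t.1, 0, nn t) := by
          simp only [g]
          rw [if_neg c1, if_neg c2]
        rw [e]
        simp only [G, Finset.mem_union, Finset.mem_product, Finset.mem_singleton, Finset.mem_range]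
        right; right
        refine ⟨trivial, ?_, trivial, k0⟩
        rw [Nat.lt_succ_iff]
        apply Nat.div_le_of_le_mul
        have c3 : s + 1 ≤ t.1 := by
          by_contra hcon
          exact c2 (Or.inr (by omega))
        calc 24 * x ≤ 24 * ((s + 1) * (s + 1)) := by omega
          _ = (s + 1) * (24 * (s + 1)) := by ring
          _ ≤ t.1 * (24 * (s + 1)) := Nat.mul_le_mul_right _ c3
  have hinj : Set.InjOn g A := by
    intro t ht t' ht' he
    have u := hnn t ht
    have u' := hnn t' ht'
    obtain ⟨k1, k2⟩ := h0 _ _ _ _ u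
    obtain ⟨k1', k2'⟩ := h0 _ _ _ _ u'
    have fin : t.1 = t'.1 → t.2.1 = t'.2.1 → nn t = nn t' → t = t' := by
      intro e1 e2 e3
      have u2 : S t.1 t.2.1 t'.2.2 (nn t) := by rw [e1, e2, e3]; exact u'
      have e4 := h2 _ _ _ _ _ u u2
      exact Prod.ext e1 (Prod.ext e2 e4)
    have fin2 : t.1 = t'.1 → B ≤ t.2.1 → B ≤ t'.2.1 → nn t = nn t' → t = t' := by
      intro e1 e2 e2' e3
      have u2 : S t.1 t'.2.1 t'.2.2 (nn t) := by rw [e1, e3]; exact u'
      exact fin e1 (h3 _ _ _ _ _ _ u u2 e2 e2') e3
    by_cases c1 : t.2.1 < B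
    · have e : g t = (0, t.1, t.2.1, nn t) := if_pos c1
      by_cases c1' : t'.2.1 < B
      · have e' : g t' = (0, t'.1, t'.2.1, nn t') := if_pos c1'
        rw [e, e'] at he
        simp only [Prod.mk.injEq, true_and] at he
        exact fin he.1 he.2.1 he.2.2
      · exfalso
        by_cases c2' : t'.1 < B ∨ t'.1 ≤ s
        · have e' : g t' = (1, t'.1, 0, nn t') := by
            simp only [g]
            rw [if_neg c1', if_pos c2']
          rw [e, e'] at he
          simp at he
        · have e' : g t' = (2, 24 * x / t'.1, 0, nn t') := by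
            simp only [g]
            rw [if_neg c1', if_neg c2']
          rw [e, e'] at he
          simp at he
    · by_cases c2 : t.1 < B ∨ t.1 ≤ s
      · have e : g t = (1, t.1, 0, nn t) := by
          simp only [g]
          rw [if_neg c1, if_pos c2]
        by_cases c1' : t'.2.1 < B
        · have e' : g t' = (0, t'.1, t'.2.1, nn t') := if_pos c1'
          rw [e, e'] at he
          simp at he
        · by_cases c2' : t'.1 < B ∨ t'.1 ≤ s
          · have e' : g t' = (1, t'.1, 0, nn t') := by
              simp only [g]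
              rw [if_neg c1', if_pos c2']
            rw [e, e'] at he
            simp only [Prod.mk.injEq, true_and] at he
            exact fin2 he.1 (by omega) (by omega) he.2
          · have e' : g t' = (2, 24 * x / t'.1, 0, nn t') := by
              simp only [g]
              rw [if_neg c1', if_neg c2']
            rw [e, e'] at he
            simp at he
      · have e : g t = (2, 24 * x / t.1, 0, nn t) := by
          simp only [g]
          rw [if_neg c1, if_neg c2]
        by_cases c1' : t'.2.1 < B
        · have e' : g t' = (0, t'.1, t'.2.1, nn t') := if_pos c1'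
          rw [e, e'] at he
          simp at he
        · by_cases c2' : t'.1 < B ∨ t'.1 ≤ s
          · have e' : g t' = (1, t'.1, 0, nn t') := by
              simp only [g]
              rw [if_neg c1', if_pos c2']
            rw [e, e'] at he
            simp at he
          · have e' : g t' = (2, 24 * x / t'.1, 0, nn t') := by
              simp only [g]
              rw [if_neg c1', if_neg c2']
            rw [e, e'] at he
            simp only [Prod.mk.injEq, true_and] at he
            obtain ⟨he1, he2⟩ := he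
            have main : ∀ a b m a' b' m' N : ℕ, S a b m N → S a' b' m' N → B ≤ a → s < a →
                a < a' → b ≤ x → b' ≤ x → 24 * x / a = 24 * x / a' → False := by
              intro a b m a' b' m' N v v' w1 w2 w3 w4 w5 w6
              have w7 : x ≤ a ^ 2 := by
                have : (s + 1) * (s + 1) ≤ a * a := Nat.mul_le_mul (by omega) (by omega)
                rw [sq]; omega
              have w8 := h4 x a b m a' b' m' N v v' w1 w3 w4 w5 w7
              have ha : 0 < a := by omega
              have ha' : 0 < a' := by omega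
              set q := 24 * x / a with hq
              have p1 : 24 * x < (q + 1) * a := by
                have := Nat.lt_mul_div_succ (24 * x) ha
                rw [← hq] at this
                linarith [mul_comm a (q + 1)]
              have p2 : q * a' ≤ 24 * x := by
                rw [w6]
                exact Nat.div_mul_le_self _ _
              have p3 : 24 * x * a' < (q + 1) * a * a' := Nat.mul_lt_mul_of_pos_right p1 ha'
              have p4 : q * a' * a ≤ 24 * x * a := Nat.mul_le_mul_right _ p2
              have p5 : 24 * x * (a' - a) + 24 * x * a = 24 * x * a' := by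
                rw [← mul_add]
                congr 1
                omega
              have p6 : (q + 1) * a * a' = q * a' * a + a * a' := by ring
              omega
            rcases lt_trichotomy t.1 t'.1 with hlt | heq | hgt
            · exfalso
              have u2 : S t'.1 t'.2.1 t'.2.2 (nn t) := by rw [he2]; exact u'
              refine main _ _ _ _ _ _ _ u u2 ?_ ?_ hlt ht.2 ht'.2 he1
              · by_contra hcon; exact c2 (Or.inl (by omega))
              · by_contra hcon; exact c2 (Or.inr (by omega))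
            · exact fin2 heq (by omega) (by omega) he2
            · exfalso
              have u2 : S t'.1 t'.2.1 t'.2.2 (nn t) := by rw [he2]; exact u'
              refine main _ _ _ _ _ _ _ u2 u ?_ ?_ hgt ht'.2 ht.2 he1.symm
              · by_contra hcon; exact c2' (Or.inl (by omega))
              · by_contra hcon; exact c2' (Or.inr (by omega))
  refine ⟨Set.Finite.of_injOn (fun t ht => hmap t ht) hinj G.finite_toSet, ?_⟩
  have hcard : A.ncard ≤ G.card := by
    have := Set.ncard_le_ncard_of_injOn g hmap hinj G.finite_toSet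
    rwa [Set.ncard_coe_finset] at this
  have hG : G.card ≤ B * (B * L) + ((B + s + 1) * L + (24 * (s + 1) + 1) * L) := by
    refine (Finset.card_union_le _ _).trans ?_
    refine Nat.add_le_add ?_ ((Finset.card_union_le _ _).trans (Nat.add_le_add ?_ ?_))
    · simp only [Finset.card_product, Finset.card_singleton, Finset.card_range, one_mul]; rfl
    · simp only [Finset.card_product, Finset.card_singleton, Finset.card_range, one_mul]; rfl
    · simp only [Finset.card_product, Finset.card_singleton, Finset.card_range, one_mul]; rfl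
  have h5 : (A.ncard : ℝ) ≤ B * (B * L) + ((B + s + 1) * L + (24 * (s + 1) + 1) * L) := by
    exact_mod_cast hcard.trans hG
  have hLr : (L : ℝ) ≤ 7 * Real.log x := by
    have h6 := Nat.floor_le hlog0
    have h7 : Real.log 2 ≤ Real.log x := Real.log_le_log (by norm_num) (by exact_mod_cast hx)
    have h8 := Real.log_two_gt_d9
    rw [hL]
    push_cast
    linarith
  have hsr : (s : ℝ) ≤ Real.sqrt x := by
    apply Real.le_sqrt_of_sq_le
    have : s * s ≤ x := Nat.sqrt_le x
    have h9 : ((s * s : ℕ) : ℝ) ≤ (x : ℝ) := by exact_mod_cast this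
    push_cast at h9
    nlinarith
  have h1r : 1 ≤ Real.sqrt x := by
    rw [Real.one_le_sqrt]
    exact hx1
  have hB0 : (0 : ℝ) ≤ B := Nat.cast_nonneg _
  have hL0 : (0 : ℝ) ≤ L := Nat.cast_nonneg _
  have h10 : (B : ℝ) * (B * L) + ((B + s + 1) * L + (24 * (s + 1) + 1) * L) =
      ((B:ℝ) ^ 2 + B + 26 + 25 * s) * L := by ring
  rw [h10] at h5
  have h11 : ((B:ℝ) ^ 2 + B + 26 + 25 * s) ≤ ((B:ℝ) ^ 2 + B + 51) * Real.sqrt x := by
    have : (B:ℝ) ^ 2 + B + 26 ≤ ((B:ℝ) ^ 2 + B + 26) * Real.sqrt x := by
      have h12 : 0 ≤ (B:ℝ) ^ 2 + B + 26 := by positivity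
      nlinarith
    linarith
  calc (A.ncard : ℝ) ≤ ((B:ℝ) ^ 2 + B + 26 + 25 * s) * L := h5
    _ ≤ (((B:ℝ) ^ 2 + B + 51) * Real.sqrt x) * (7 * Real.log x) := by
        apply mul_le_mul h11 hLr hL0
        positivity
    _ = 7 * ((B:ℝ) ^ 2 + B + 51) * Real.sqrt x * Real.log x := by ring

end Pool.Agent.W195.HS
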